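import Pool.Agent.Helper31.HWRep

/-!
# Multiplicative extension of exponentiated highest weights

`𝒜` is a commutative (non-unital) complex topological *-algebra.
`sl_2(𝒜) = 𝒜 h ⊕ 𝒜 e ⊕ 𝒜 f` is written in coordinates: `(a, b, c)` stands for `a h + b e + c f`.
The unitization `𝒜₊ = ℂ 1 ⊕ 𝒜` is `Unitization ℂ 𝒜`.

The main theorem needs neither local convexity, nor completeness, nor the continuous inverse
property, nor irreducibility; it applies in particular to every non-unital involutive continuous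
inverse algebra and every irreducible bounded unitary representation with a nonzero vector killed
by all `a e`.
-/

namespace Pool.Agent.Results.MP_521103_al.HolomorphicExtension

section Defs

variable {𝒜 : Type*} [NonUnitalCommRing 𝒜] [Module ℂ 𝒜]

/-- The Lie bracket of `sl_2(𝒜)`: `[x ⊗ a, y ⊗ b] = [x, y] ⊗ ab`, where
`[h, e] = 2 e`, `[h, f] = -2 f`, `[e, f] = h`, and `(a, b, c)` stands for `a h + b e + c f`. -/
def bracket (X Y : 𝒜 × 𝒜 × 𝒜) : 𝒜 × 𝒜 × 𝒜 :=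
  (X.2.1 * Y.2.2 - X.2.2 * Y.2.1,
    (2 : ℂ) • (X.1 * Y.2.1 - X.2.1 * Y.1),
    (2 : ℂ) • (X.2.2 * Y.1 - X.1 * Y.2.2))

/-- The involution `(x ⊗ a)^* = x^* ⊗ a^*` of `sl_2(𝒜)`, with `h^* = h`, `e^* = f`, `f^* = e`.
The real form `su_2 ⊗ 𝒜_ℝ` is the set of all `X` with `X^* = -X`. -/
def invol [Star 𝒜] (X : 𝒜 × 𝒜 × 𝒜) : 𝒜 × 𝒜 × 𝒜 := (star X.1, star X.2.2, star X.2.1)

/-- `π` is (the complex-linear extension to `sl_2(𝒜)` of) a bounded unitary representation of the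
real form `su_2 ⊗ 𝒜_ℝ` on the Hilbert space `ℋ`: a continuous complex-linear map into the bounded
operators (with the norm topology), compatible with the brackets, with skew-adjoint values on
the real form. -/
structure IsBoundedUnitaryRep [Star 𝒜] [TopologicalSpace 𝒜] {ℋ : Type*} [NormedAddCommGroup ℋ]
    [InnerProductSpace ℂ ℋ] [CompleteSpace ℋ] (π : (𝒜 × 𝒜 × 𝒜) →L[ℂ] (ℋ →L[ℂ] ℋ)) : Prop where
  map_bracket : ∀ X Y, π (bracket X Y) = π X * π Y - π Y * π X
  skewAdjoint : ∀ X, invol X = -X → ContinuousLinearMap.adjoint (π X) = -π X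

/-- A function `F` on `1 + 𝒜` (where `F a` stands for the value at `1 + a`) is multiplicative. -/
def IsMultiplicative (F : 𝒜 → ℂ) : Prop :=
  ∀ a b c : 𝒜, (1 + (a : Unitization ℂ 𝒜)) * (1 + (b : Unitization ℂ 𝒜)) =
    1 + (c : Unitization ℂ 𝒜) → F c = F a * F b

/-- A function `F` on `1 + 𝒜` (where `F a` stands for the value at `1 + a`) is holomorphic:
continuous, and complex differentiable along every complex line. -/
def IsHolomorphic [TopologicalSpace 𝒜] (F : 𝒜 → ℂ) : Prop :=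
  Continuous F ∧ ∀ a b : 𝒜, Differentiable ℂ fun z : ℂ => F (a + z • b)

/-- `e^a = 1 + c` in `𝒜₊ = ℂ 1 ⊕ 𝒜`: the exponential series of `a` converges to `1 + c`, for the
product topology of `ℂ × 𝒜`. -/
def IsExp [TopologicalSpace 𝒜] [IsScalarTower ℂ 𝒜 𝒜] [SMulCommClass ℂ 𝒜 𝒜] (a c : 𝒜) : Prop :=
  HasSum (fun n : ℕ => (((n.factorial : ℂ)⁻¹) • (a : Unitization ℂ 𝒜) ^ n).toProd) ((1 : ℂ), c)

end Defs

open Pool.Agent.Helper31.HW

/-- **Main theorem** (positive answer to Q1). Let `𝒜` be a commutative complex topological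
*-algebra and `π` a bounded unitary representation of `su_2 ⊗ 𝒜_ℝ` on a Hilbert space `ℋ`. Let
`v ≠ 0` be killed by all `π(a e)` and let `π(a h) v = lam(a) v` for all `a`. Then there is a
holomorphic multiplicative function `F` on `1 + 𝒜` with `F(e^a) = e^{lam(a)}` for all `a`. -/
theorem result {𝒜 : Type*} [NonUnitalCommRing 𝒜] [Module ℂ 𝒜] [IsScalarTower ℂ 𝒜 𝒜]
    [SMulCommClass ℂ 𝒜 𝒜] [StarRing 𝒜] [StarModule ℂ 𝒜] [TopologicalSpace 𝒜]
    {ℋ : Type*} [NormedAddCommGroup ℋ] [InnerProductSpace ℂ ℋ] [CompleteSpace ℋ]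
    (π : (𝒜 × 𝒜 × 𝒜) →L[ℂ] (ℋ →L[ℂ] ℋ)) (hπ : IsBoundedUnitaryRep π)
    (v : ℋ) (hv : v ≠ 0) (he : ∀ a : 𝒜, π (0, a, 0) v = 0)
    (lam : 𝒜 → ℂ) (hh : ∀ a : 𝒜, π (a, 0, 0) v = lam a • v) :
    ∃ F : 𝒜 → ℂ, IsMultiplicative F ∧ IsHolomorphic F ∧
      ∀ a c : 𝒜, IsExp a c → F c = Complex.exp (lam a) := by
  let E : 𝒜 →ₗ[ℂ] (ℋ →L[ℂ] ℋ) := π.toLinearMap ∘ₗ (LinearMap.inr ℂ 𝒜 (𝒜 × 𝒜)) ∘ₗ
    (LinearMap.inl ℂ 𝒜 𝒜)
  let H : 𝒜 →ₗ[ℂ] (ℋ →L[ℂ] ℋ) := π.toLinearMap ∘ₗ (LinearMap.inl ℂ 𝒜 (𝒜 × 𝒜))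
  let Y : 𝒜 →ₗ[ℂ] (ℋ →L[ℂ] ℋ) := π.toLinearMap ∘ₗ (LinearMap.inr ℂ 𝒜 (𝒜 × 𝒜)) ∘ₗ
    (LinearMap.inr ℂ 𝒜 𝒜)
  have hE : ∀ a, E a = π (0, a, 0) := fun a => rfl
  have hH : ∀ a, H a = π (a, 0, 0) := fun a => rfl
  have hY : ∀ a, Y a = π (0, 0, a) := fun a => rfl
  -- the adjoint relation on all of `sl_2(𝒜)`
  have hadj : ∀ X, ContinuousLinearMap.adjoint (π X) = π (invol X) := by
    intro X
    have invol_add : ∀ X Y : 𝒜 × 𝒜 × 𝒜, invol (X + Y) = invol X + invol Y := by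
      intro X Y
      simp [invol]
    have invol_smul : ∀ (c : ℂ) (X : 𝒜 × 𝒜 × 𝒜),
        invol (c • X) = (starRingEnd ℂ c) • invol X := by
      intro c X
      simp [invol]
    have invol_neg : ∀ X : 𝒜 × 𝒜 × 𝒜, invol (-X) = -invol X := by
      intro X
      simp [invol]
    have invol_invol : ∀ X : 𝒜 × 𝒜 × 𝒜, invol (invol X) = X := by
      intro X
      simp [invol]
    have conj2 : (starRingEnd ℂ) 2 = 2 := map_ofNat _ 2
    have hI : Complex.I * -(Complex.I / 2) = 1 / 2 := by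
      linear_combination (-(1 / 2 : ℂ)) * Complex.I_mul_I
    obtain ⟨X₁, X₂, h1, h2, hX, hX'⟩ : ∃ X₁ X₂ : 𝒜 × 𝒜 × 𝒜, invol X₁ = -X₁ ∧ invol X₂ = -X₂ ∧
        X = X₁ + Complex.I • X₂ ∧ invol X = -X₁ + Complex.I • X₂ := by
      refine ⟨(1 / 2 : ℂ) • (X + -invol X), (-(Complex.I / 2) : ℂ) • (X + invol X), ?_, ?_, ?_, ?_⟩
      · rw [invol_smul, invol_add, invol_neg, invol_invol, ← smul_neg]
        congr 1
        · simp [conj2]
        · abel
      · rw [invol_smul, invol_add, invol_invol, ← neg_smul]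
        congr 1
        · simp [neg_div, conj2]
        · abel
      · rw [smul_smul, hI, ← smul_add]
        have : X + -invol X + (X + invol X) = (2 : ℂ) • X := by
          rw [two_smul]; abel
        rw [this, smul_smul]
        norm_num
      · rw [smul_smul, hI, ← smul_neg, ← smul_add]
        have : -(X + -invol X) + (X + invol X) = (2 : ℂ) • invol X := by
          rw [two_smul]; abel
        rw [this, smul_smul]
        norm_num
    rw [hX']
    nth_rw 1 [hX]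
    rw [map_add, map_add, map_add, map_neg, map_smul, hπ.skewAdjoint X₁ h1]
    congr 1
    have h3 : ContinuousLinearMap.adjoint (Complex.I • π X₂) =
        (starRingEnd ℂ Complex.I) • ContinuousLinearMap.adjoint (π X₂) := by
      exact map_smulₛₗ _ _ _
    rw [h3, hπ.skewAdjoint X₂ h2, Complex.conj_I]
    simp
  have hbr := hπ.map_bracket
  have b1 : ∀ a b : 𝒜, π (a, 0, 0) * π (0, b, 0) - π (0, b, 0) * π (a, 0, 0) =
      (2 : ℂ) • π (0, a * b, 0) := by
    intro a b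
    rw [← hbr, ← map_smul]
    congr 1
    simp [bracket]
  have b2 : ∀ a b : 𝒜, π (a, 0, 0) * π (0, 0, b) - π (0, 0, b) * π (a, 0, 0) =
      -((2 : ℂ) • π (0, 0, a * b)) := by
    intro a b
    rw [← hbr, ← map_smul, ← map_neg]
    congr 1
    simp [bracket]
  have b3 : ∀ a b : 𝒜, π (0, a, 0) * π (0, 0, b) - π (0, 0, b) * π (0, a, 0) =
      π (a * b, 0, 0) := by
    intro a b
    rw [← hbr]
    congr 1
    simp [bracket]
  have b4 : ∀ a b : 𝒜, π (0, a, 0) * π (0, b, 0) - π (0, b, 0) * π (0, a, 0) = 0 := by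
    intro a b
    rw [← hbr, ← map_zero π]
    congr 1
    simp [bracket]
  have b5 : ∀ a b : 𝒜, π (0, 0, a) * π (0, 0, b) - π (0, 0, b) * π (0, 0, a) = 0 := by
    intro a b
    rw [← hbr, ← map_zero π]
    congr 1
    simp [bracket]
  let P : PreData 𝒜 (ℋ →L[ℂ] ℋ) := mkPre E H Y v hv lam star
    (fun a b => sub_eq_zero.mp (b4 a b)) (fun a b => sub_eq_zero.mp (b5 a b)) b1 b2 b3
    (fun a => by rw [hY, hadj, hE]; simp [invol])
    (fun a => by rw [hH, hadj, hH]; simp [invol])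
    he hh
  have hcE : Continuous P.E := by
    change Continuous fun a : 𝒜 => π (0, a, 0)
    fun_prop
  have hcH : Continuous P.H := by
    change Continuous fun a : 𝒜 => π (a, 0, 0)
    fun_prop
  have hcY : Continuous P.Y := by
    change Continuous fun a : 𝒜 => π (0, 0, a)
    fun_prop
  obtain ⟨F, hF1, hF2, hF3⟩ := exists_F P hcE hcH hcY
  refine ⟨F, hF1, hF2, ?_⟩
  intro a c hac
  rw [hF3 a c hac]
  congr 1
  change vecState v (π (a, 0, 0)) = lam a
  rw [vecState_apply, hh, inner_smul_right]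
  have hvv : inner ℂ v v ≠ 0 := by
    rw [Ne, inner_self_eq_zero]; exact hv
  field_simp

end Pool.Agent.Results.MP_521103_al.HolomorphicExtension
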